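import Pool.Agent.helper43.BMH.Spec

set_option autoImplicit false

/-! # Row bmh:GEO (MP_cef0b4_gt): a geometric sum over the integers -/

namespace Pool.Agent.helper43.BMH

theorem GEO_aux (x : ℝ) (h0 : 0 ≤ x) (h1 : x < 1) (T : Finset ℤ) (f : ℤ → ℕ)
    (hf : Set.InjOn f T) : ∑ j ∈ T, x ^ f j ≤ 1 / (1 - x) := by
  classical
  have h2 : ∑ j ∈ T, x ^ f j = ∑ m ∈ T.image f, x ^ m := (Finset.sum_image hf).symm
  rw [h2, one_div, ← tsum_geometric_of_lt_one h0 h1]
  exact (summable_geometric_of_lt_one h0 h1).sum_le_tsum _ fun m _ => pow_nonneg h0 m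

theorem t_geo : GEO := by
  intro x h0 h1 S
  have hx : 0 < 1 - x := by linarith
  rw [← Finset.sum_filter_add_sum_filter_not S (fun j => 0 ≤ j)]
  have hA : ∑ j ∈ S.filter (fun j => 0 ≤ j), x ^ j.natAbs ≤ 1 / (1 - x) := by
    apply GEO_aux x h0 h1
    intro a ha b hb hab
    have ha' := (Finset.mem_filter.1 (Finset.mem_coe.1 ha)).2
    have hb' := (Finset.mem_filter.1 (Finset.mem_coe.1 hb)).2
    have hab' : a.natAbs = b.natAbs := hab
    omega
  have hB : ∑ j ∈ S.filter (fun j => ¬ 0 ≤ j), x ^ j.natAbs ≤ x * (1 / (1 - x)) := by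
    have h2 : ∑ j ∈ S.filter (fun j => ¬ 0 ≤ j), x ^ j.natAbs =
        x * ∑ j ∈ S.filter (fun j => ¬ 0 ≤ j), x ^ (j.natAbs - 1) := by
      rw [Finset.mul_sum]
      apply Finset.sum_congr rfl
      intro j hj
      have hj' := (Finset.mem_filter.1 hj).2
      rw [← pow_succ']
      congr 1
      omega
    rw [h2]
    apply mul_le_mul_of_nonneg_left _ h0
    apply GEO_aux x h0 h1
    intro a ha b hb hab
    have ha' := (Finset.mem_filter.1 (Finset.mem_coe.1 ha)).2
    have hb' := (Finset.mem_filter.1 (Finset.mem_coe.1 hb)).2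
    have hab' : a.natAbs - 1 = b.natAbs - 1 := hab
    omega
  have hC : 1 / (1 - x) + x * (1 / (1 - x)) = 1 + 2 * x / (1 - x) := by
    field_simp
    ring
  linarith

end Pool.Agent.helper43.BMH
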