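import Pool.Agent.helper43.BMH.Spec

set_option autoImplicit false

/-! # Row bmh:STA (MP_cef0b4_gt): stability of the norm of a Hadamard matrix -/

namespace Pool.Agent.helper43.BMH

open scoped ENNReal
open Pool.Agent.helper75.BM (nrm N2 L dBM)

theorem STA_a (p : ℝ≥0∞) [Fact (1 ≤ p)] (hp2 : p < 2) :
    1 / 2 < (1 / p).toReal ∧ (1 / p).toReal ≤ 1 := by
  have hpt : p ≠ ⊤ := (hp2.trans ENNReal.ofNat_lt_top).ne
  have hp1 : 1 ≤ p.toReal := Pool.Agent.helper75.BM.toReal_ge hpt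
  have hp2' : p.toReal < 2 := by
    have := (ENNReal.toReal_lt_toReal hpt (by norm_num)).2 hp2
    simpa using this
  rw [one_div p, ENNReal.toReal_inv]
  constructor
  · rw [← one_div]
    exact one_div_lt_one_div_of_lt (by linarith) hp2'
  · exact inv_le_one_of_one_le₀ hp1

theorem STA_b (q : ℝ≥0∞) (hq2 : 2 < q) : 0 ≤ (1 / q).toReal ∧ (1 / q).toReal < 1 / 2 := by
  refine ⟨ENNReal.toReal_nonneg, ?_⟩
  by_cases hqt : q = ⊤
  · subst hqt
    simp
  · have h1 : 2 < q.toReal := by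
      have := (ENNReal.toReal_lt_toReal (by norm_num) hqt).2 hq2
      simpa using this
    rw [one_div q, ENNReal.toReal_inv, ← one_div]
    exact one_div_lt_one_div_of_lt (by norm_num) h1

theorem STA_u (m δ : ℝ) (hδ : 0 < δ) : ∃ u : ℝ, 0 < u ∧ u < 1 ∧
    (Real.sqrt (1 - u) + Real.sqrt (1 - u ^ m)) ^ 2 < δ := by
  have hc : ContinuousAt (fun u : ℝ => (Real.sqrt (1 - u) + Real.sqrt (1 - u ^ m)) ^ 2) 1 := by
    have h1 : ContinuousAt (fun u : ℝ => u ^ m) 1 :=
      Real.continuousAt_rpow_const 1 m (Or.inl one_ne_zero)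
    exact ((Real.continuous_sqrt.continuousAt.comp
      (continuousAt_const.sub continuousAt_id)).add (Real.continuous_sqrt.continuousAt.comp
        (continuousAt_const.sub h1))).pow 2
  have h0 : (fun u : ℝ => (Real.sqrt (1 - u) + Real.sqrt (1 - u ^ m)) ^ 2) 1 < δ := by
    simpa using hδ
  have h2 := hc.eventually (gt_mem_nhds h0)
  have h3 : ∀ᶠ u in nhdsWithin (1 : ℝ) (Set.Iio 1), 0 < u ∧ u < 1 ∧
      (Real.sqrt (1 - u) + Real.sqrt (1 - u ^ m)) ^ 2 < δ := by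
    filter_upwards [nhdsWithin_le_nhds h2, nhdsWithin_le_nhds (lt_mem_nhds zero_lt_one),
      self_mem_nhdsWithin] with u hu1 hu2 hu3
    exact ⟨hu2, hu3, hu1⟩
  exact h3.exists

theorem t_sta (hn : HDN) (h1 : HO1) (h2 : HO2) (hr : RND) : STA := by
  intro p q hp hq hp2 hq2 δ hδ
  obtain ⟨ha1, ha2⟩ := STA_a p hp2
  obtain ⟨hb0, hb1⟩ := STA_b q hq2
  have HH1 := h1 p hp2
  have HH2 := h2 q hq2
  have PM2 := @Pool.Agent.helper75.BM.pm2
  obtain ⟨a, ha⟩ : ∃ a, a = (1 / p).toReal := ⟨_, rfl⟩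
  obtain ⟨b, hb⟩ : ∃ b, b = (1 / q).toReal := ⟨_, rfl⟩
  obtain ⟨t, htd⟩ : ∃ t, t = 1 / (2 * (1 - b)) := ⟨_, rfl⟩
  rw [← ha] at ha1 ha2
  rw [← hb] at hb0 hb1
  rw [← ha] at HH1
  rw [← hb, ← htd] at HH2
  rw [← ha, ← hb]
  have hbp : 0 < 2 * (1 - b) := by linarith
  have ht : t < 1 := by
    rw [htd, div_lt_one hbp]
    linarith
  have ht0 : 0 < 1 - t := by linarith
  have htb : 1 / 2 - b * t = 1 - t := by
    have h3 : t * (2 * (1 - b)) = 1 := by
      rw [htd, one_div_mul_cancel hbp.ne']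
    linarith
  obtain ⟨u, hu0, hu1, hu⟩ := STA_u (1 / (1 - t)) δ hδ
  refine ⟨1 - u ^ (2 * a - 1), sub_pos.2 (Real.rpow_lt_one hu0.le hu1 (by linarith)), ?_, ?_⟩
  · have := Real.rpow_pos_of_pos hu0 (2 * a - 1)
    linarith
  intro d H hd hH hsgn
  have hd0 : (0 : ℝ) < d := by exact_mod_cast hd
  have hs0 : 0 < Real.sqrt d := Real.sqrt_pos.2 hd0
  have hss : Real.sqrt d * Real.sqrt d = d := Real.mul_self_sqrt hd0.le
  have hsr : Real.sqrt d = (d : ℝ) ^ (1 / 2 : ℝ) := Real.sqrt_eq_rpow _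
  have key : ∀ y : Fin d → ℝ, nrm q y = (d : ℝ) ^ b →
      nrm p (H.mulVec y) ≤ u ^ (2 * a - 1) * (d : ℝ) ^ (a + 1 / 2) := by
    intro y hy
    by_contra hcon
    rw [not_le] at hcon
    -- the vector v
    obtain ⟨v, hv⟩ : ∃ v : Fin d → ℝ, v = fun i => H.mulVec y i / Real.sqrt d := ⟨_, rfl⟩
    have hvs : v = (1 / Real.sqrt d) • H.mulVec y := by
      rw [hv]
      funext i
      rw [Pi.smul_apply, smul_eq_mul]
      ring
    have hvn : nrm p v = nrm p (H.mulVec y) / Real.sqrt d := by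
      rw [hvs, Pool.Agent.helper75.BM.nrm_smul, abs_of_pos (by positivity)]
      ring
    have hv2 : ∑ i, v i ^ 2 = ∑ i, y i ^ 2 := by
      have h3 := (hn (Fin d) H hH).2.2 y
      rw [Fintype.card_fin] at h3
      have h4 : ∀ i, v i ^ 2 = H.mulVec y i ^ 2 / d := by
        intro i
        rw [hv]
        show (H.mulVec y i / Real.sqrt d) ^ 2 = _
        rw [div_pow, Real.sq_sqrt hd0.le]
      rw [Finset.sum_congr rfl fun i _ => h4 i, ← Finset.sum_div, h3]
      field_simp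
    have hE : Real.sqrt (∑ i, y i ^ 2) ≤ Real.sqrt d := by
      have h3 : Pool.Agent.helper75.BM.e2 y ≤ (d : ℝ) ^ (1 / 2 - (1 / q).toReal) * nrm q y :=
        PM2 hq2 hd y
      rw [hy, ← hb, ← Real.rpow_add hd0] at h3
      have h4 : (1 / 2 - b + b : ℝ) = 1 / 2 := by ring
      rw [h4, ← hsr] at h3
      exact h3
    have hE2 : ∑ i, y i ^ 2 ≤ (d : ℝ) := (Real.sqrt_le_sqrt_iff hd0.le).1 hE
    obtain ⟨S, hS⟩ : ∃ S, S = ∑ i, |v i| := ⟨_, rfl⟩
    obtain ⟨Y, hY⟩ : ∃ Y, Y = ∑ i, |y i| := ⟨_, rfl⟩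
    obtain ⟨E, hEd⟩ : ∃ E, E = Real.sqrt (∑ i, y i ^ 2) := ⟨_, rfl⟩
    have hS0 : 0 ≤ S := by
      rw [hS]
      exact Finset.sum_nonneg fun i _ => abs_nonneg _
    have hY0 : 0 ≤ Y := by
      rw [hY]
      exact Finset.sum_nonneg fun i _ => abs_nonneg _
    have hE0 : 0 ≤ E := by
      rw [hEd]
      exact Real.sqrt_nonneg _
    have g1 := HH1 d v
    have g2 := HH2 d y
    rw [hv2, ← hEd, ← hS] at g1
    rw [← hEd, ← hY, hy] at g2
    rw [← hEd] at hE
    -- S > u d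
    have k1 : u * d < S := by
      have e1 : u ^ (2 * a - 1) * (d : ℝ) ^ a < nrm p v := by
        rw [hvn, lt_div_iff₀ hs0, hsr, mul_assoc, ← Real.rpow_add hd0]
        exact hcon
      have e2 : E ^ (2 - 2 * a) ≤ (d : ℝ) ^ (1 - a) := by
        have e3 : E ^ (2 - 2 * a) ≤ Real.sqrt d ^ (2 - 2 * a) :=
          Real.rpow_le_rpow hE0 hE (by linarith)
        rw [hsr, ← Real.rpow_mul hd0.le] at e3
        have e4 : (1 / 2 * (2 - 2 * a) : ℝ) = 1 - a := by ring
        rwa [e4] at e3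
      have e5 : nrm p v ≤ S ^ (2 * a - 1) * (d : ℝ) ^ (1 - a) :=
        g1.trans (mul_le_mul_of_nonneg_left e2 (Real.rpow_nonneg hS0 _))
      have e6 : u ^ (2 * a - 1) * (d : ℝ) ^ a =
          (u * d) ^ (2 * a - 1) * (d : ℝ) ^ (1 - a) := by
        rw [Real.mul_rpow hu0.le hd0.le, mul_assoc, ← Real.rpow_add hd0]
        congr 2
        ring
      have e7 : (u * d) ^ (2 * a - 1) < S ^ (2 * a - 1) := by
        have e8 : (u * d) ^ (2 * a - 1) * (d : ℝ) ^ (1 - a) < S ^ (2 * a - 1) * (d : ℝ) ^ (1 - a) := by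
          rw [← e6]
          exact lt_of_lt_of_le e1 e5
        exact lt_of_mul_lt_mul_right e8 (Real.rpow_nonneg hd0.le _)
      exact (Real.rpow_lt_rpow_iff (by positivity) hS0 (by linarith)).1 e7
    -- E > u √d
    have k2 : u * Real.sqrt d < E := by
      have e1 : S ^ 2 ≤ (d : ℝ) * ∑ i, y i ^ 2 := by
        have e2 := sq_sum_le_card_mul_sum_sq (s := (Finset.univ : Finset (Fin d)))
          (f := fun i => |v i|)
        rw [Finset.card_univ, Fintype.card_fin, ← hS] at e2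
        have e3 : ∑ i, |v i| ^ 2 = ∑ i, y i ^ 2 := by
          rw [← hv2]
          exact Finset.sum_congr rfl fun i _ => sq_abs _
        rw [e3] at e2
        exact e2
      have e4 : S ≤ Real.sqrt d * E := by
        have e5 := Real.sqrt_le_sqrt e1
        rw [Real.sqrt_sq hS0, Real.sqrt_mul hd0.le, ← hEd] at e5
        exact e5
      have e6 : Real.sqrt d * (u * Real.sqrt d) < Real.sqrt d * E := by
        calc Real.sqrt d * (u * Real.sqrt d) = u * (Real.sqrt d * Real.sqrt d) := by ring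
          _ = u * d := by rw [hss]
          _ < S := k1
          _ ≤ _ := e4
      exact lt_of_mul_lt_mul_left e6 hs0.le
    -- Y > u^(1/(1-t)) d
    have k3 : u ^ (1 / (1 - t)) * d < Y := by
      have e1 : ((d : ℝ) ^ b) ^ t = (d : ℝ) ^ (b * t) := (Real.rpow_mul hd0.le _ _).symm
      rw [e1] at g2
      have e2 : u * Real.sqrt d < Y ^ (1 - t) * (d : ℝ) ^ (b * t) := lt_of_lt_of_le k2 g2
      have e3 : u * Real.sqrt d = (u ^ (1 / (1 - t)) * d) ^ (1 - t) * (d : ℝ) ^ (b * t) := by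
        rw [Real.mul_rpow (Real.rpow_nonneg hu0.le _) hd0.le, ← Real.rpow_mul hu0.le,
          one_div_mul_cancel ht0.ne', Real.rpow_one, mul_assoc, ← Real.rpow_add hd0, hsr]
        congr 2
        linarith
      rw [e3] at e2
      have e4 := lt_of_mul_lt_mul_right e2 (Real.rpow_nonneg hd0.le _)
      exact (Real.rpow_lt_rpow_iff (by positivity) hY0 ht0).1 e4
    have hum : u ^ (1 / (1 - t)) ≤ 1 := Real.rpow_le_one hu0.le hu1.le (by positivity)
    obtain ⟨x, w, hxw⟩ := hr d H hd hH y (1 - u) (1 - u ^ (1 / (1 - t))) (by linarith)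
      (by linarith) hE2 (by
        rw [← hY]
        have : (1 - (1 - u ^ (1 / (1 - t)))) * (d : ℝ) = u ^ (1 / (1 - t)) * d := by ring
        rw [this]
        exact k3.le) (by
        have h5 : ∑ i, |H.mulVec y i / Real.sqrt d| = S := by
          rw [hS, hv]
        rw [h5]
        have : (1 - (1 - u)) * (d : ℝ) = u * d := by ring
        rw [this]
        exact k1.le)
    have h6 := hxw.trans (hsgn x w)
    have h7 : 0 < (d : ℝ) ^ (3 / 2 : ℝ) := Real.rpow_pos_of_pos hd0 _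
    have h8 := le_of_mul_le_mul_right h6 h7
    linarith
  intro y
  have hcoef : 1 - (1 - u ^ (2 * a - 1)) = u ^ (2 * a - 1) := by ring
  rw [hcoef]
  by_cases hy : y = 0
  · subst hy
    have e1 : nrm p (H.mulVec (0 : Fin d → ℝ)) = 0 := by
      rw [Matrix.mulVec_zero]
      exact Pool.Agent.helper75.BM.nrm_eq_zero.2 rfl
    have e2 : nrm q (0 : Fin d → ℝ) = 0 := Pool.Agent.helper75.BM.nrm_eq_zero.2 rfl
    rw [e1, e2, mul_zero]
  · have hpos : 0 < nrm q y := Pool.Agent.helper75.BM.nrm_pos hy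
    have hdb : 0 < (d : ℝ) ^ b := Real.rpow_pos_of_pos hd0 _
    have hc : 0 < (d : ℝ) ^ b / nrm q y := div_pos hdb hpos
    have h3 := key (((d : ℝ) ^ b / nrm q y) • y) (by
      rw [Pool.Agent.helper75.BM.nrm_smul, abs_of_pos hc]
      field_simp)
    rw [Matrix.mulVec_smul, Pool.Agent.helper75.BM.nrm_smul, abs_of_pos hc] at h3
    have h4 : (d : ℝ) ^ (a + 1 / 2) = (d : ℝ) ^ (a + 1 / 2 - b) * (d : ℝ) ^ b := by
      rw [← Real.rpow_add hd0]
      congr 1
      ring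
    have h5 : (d : ℝ) ^ b / nrm q y * nrm p (H.mulVec y) ≤
        (d : ℝ) ^ b / nrm q y * (u ^ (2 * a - 1) * (d : ℝ) ^ (a + 1 / 2 - b) * nrm q y) := by
      refine h3.trans (le_of_eq ?_)
      rw [h4]
      field_simp
    exact le_of_mul_le_mul_left h5 hc

end Pool.Agent.helper43.BMH
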